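import Pool.Agent.U725.ZR.Main

/-!
# Zagier's conjecture and radical extensions

Let `N(F)` be the statement that there are elements `y_i` in `ker δ_n(F)` such that the determinant of the
numbers `L_n(σ_j(y_i))` is not zero. Zagier's conjecture for the number field `F` implies `N(F)`, and `N(F)`
implies the conjecture for `F` by the theorem of Borel and the map of Beilinson and Deligne, and de Jeu.

* A criterion for arbitrary subfields: `N(F)` follows from `N(E)` for the subfields `E` in a set `S`, if all
  functions `φ` on the set of the embeddings `F → ℂ` with `φ (conj σ) = (-1)^(n-1) φ (σ)` are sums of
  functions of the restrictions `σ|E`, `E ∈ S` (`Decomposes`).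
* Radical extensions: let `F = E(a_1, ..., a_r)` with `a_i ≠ 0` and `a_i^m ∈ E`. No roots of unity in `E`
  are needed, the `a_i` can be roots of unity, the extension need not be Galois, it can have no
  automorphisms, and its degree is arbitrary. Then `N(F)` follows from `N(E(b))` for the simple radical
  extensions `E(b)`, `b = ∏ a_i^(e_i)`, `0 ≤ e_i < m`. With the known facts, Zagier's conjecture for `F`
  follows from the conjecture for the fields `E(b)`. For instance, the conjecture for all fields which are
  generated by radicals of rational numbers (all roots of unity allowed) follows from the conjecture for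
  the fields generated by one radical.
* Minimal counterexamples: let `N(F)` be false while it is true for all proper subfields of `F`. Then there
  are rational weights of the embeddings of `F`, not all zero, of the parity `(-1)^(n-1)`, whose sums over the
  embeddings which extend any given embedding of any proper subfield are zero (`Weights`), and if `F` is
  generated by radicals `a_1, ..., a_r` over a subfield `E`, then `F = E(b)` for one of the products `b`. So
  for every class of number fields which is closed under subfields the statement `N` for the class is
  equivalent to `N` for these fields of the class.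

The starting result `MP_f01982_nt.GaloisReduction` (whose library `Pool.Agent.Q219` is used) is about the
fixed fields of automorphisms of `F`, and says nothing if `F` has no automorphisms, for instance for
`F = ℚ(2^(1/m), 3^(1/m))`, `m` odd. The new step: the embeddings of `F` over a given embedding of `E` form a
subset of a torsor under the characters of the group generated by the `a_i` modulo `E^×`, and the indicator
functions of its points are sums of the functions `Re (σ(b) / σ_0(b))`.
-/

set_option autoImplicit false

namespace Pool.Agent.Results.MP_f01982_nt.RadicalExtensions

open GonP NumberField Pool.Agent.Q219.ZG Pool.Agent.Q219.ZN Pool.Agent.U725.ZR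

/-- (1) the criterion for a set of subfields; (2) radical extensions; (3) minimal counterexamples;
(4) classes which are closed under subfields; (5) Zagier's conjecture for radical extensions, with the
known facts. -/
theorem result (n : ℕ) (hn : 3 ≤ n) :
    (∀ (F : Type) [Field F] [NumberField F] (S : Set (IntermediateField ℚ F)), Decomposes n F S →
      (∀ E ∈ S, Nonvanishing n E) → Nonvanishing n F) ∧
    (∀ (F : Type) [Field F] [NumberField F] (E : IntermediateField ℚ F) (m r : ℕ) (a : Fin r → F),
      IsRadical E m a → (∀ e : Fin r → Fin m, Nonvanishing n (simple E a e)) → Nonvanishing n F) ∧
    (∀ (F : Type) [Field F] [NumberField F],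
      (∀ E : IntermediateField ℚ F, E ≠ ⊤ → Nonvanishing n E) → ¬ Nonvanishing n F →
        RemainingRad n F) ∧
    (∀ P : ∀ (F : Type) [Field F] [NumberField F], Prop,
      (∀ (F : Type) [Field F] [NumberField F], P F → ∀ E : IntermediateField ℚ F, P E) →
        ((∀ (F : Type) [Field F] [NumberField F], P F → Nonvanishing n F) ↔
          ∀ (F : Type) [Field F] [NumberField F], P F → RemainingRad n F → Nonvanishing n F)) ∧
    (∀ T : KTheory, T.IsKnown n → ∀ (F : Type) [Field F] [NumberField F]
      (E : IntermediateField ℚ F) (m r : ℕ) (a : Fin r → F), IsRadical E m a →
        (∀ e : Fin r → Fin m, Zagier n (simple E a e)) → Zagier n F) :=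
  ⟨fun _ _ _ _ hS h => of_decomposes hn hS h,
    fun _ _ _ _ _ _ _ ha h => of_radical hn ha h,
    fun _ _ _ h hF => remaining_rad hn h hF,
    fun P hP => ⟨fun h F _ _ hF _ => h F hF, fun h => induct_rad hn P hP h⟩,
    fun _ hT _ _ _ _ _ _ _ ha h => zagier_of_nonvanishing (hT.known' hn)
      (of_radical hn ha fun e => nonvanishing_of_zagier (by omega) (h e))⟩

end Pool.Agent.Results.MP_f01982_nt.RadicalExtensions
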